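import Pool.Agent.Q163.CM.Core4

/-!
# Mergelyan's theorem for the chordal metric

For every compact `L ⊆ ℂ` with connected complement the `χ`-uniform limits on `L` of sequences of
polynomials are exactly the members of `𝓜(L)`.
-/

namespace Pool.Agent.Results.MP_215127_an.ChordalMergelyan

open scoped OnePoint Polynomial
open Pool.Agent.Q163.CM

/-- `g n → f` `χ`-uniformly on `L`; `chi` is the chordal metric on `ℂ ∪ {∞}`. -/
def ChordalTendsto (L : Set ℂ) (g : ℕ → L → OnePoint ℂ) (f : L → OnePoint ℂ) : Prop :=
  ∀ ε > 0, ∃ N, ∀ n ≥ N, ∀ z : L, chi (g n z) (f z) < ε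

/-- The maps `L → Ĉ` that are `χ`-uniform limits on `L` of sequences of polynomials. -/
def polynomialLimits (L : Set ℂ) : Set (L → OnePoint ℂ) :=
  {f | ∃ p : ℕ → ℂ[X], ChordalTendsto L (fun n z => (((p n).eval (z : ℂ) : ℂ) : OnePoint ℂ)) f}

/-- The class `𝓜(L)`: continuous `f : L → Ĉ` such that on every component `V` of the interior of
`L` either `f ≡ ∞`, or `f` is finite and holomorphic. -/
def classM (L : Set ℂ) : Set (L → OnePoint ℂ) :=
  {f | Continuous f ∧ ∀ z ∈ interior L,
    (∀ w : L, (w : ℂ) ∈ connectedComponentIn (interior L) z → f w = ∞) ∨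
    (∃ g : ℂ → ℂ, DifferentiableOn ℂ g (connectedComponentIn (interior L) z) ∧
      ∀ w : L, (w : ℂ) ∈ connectedComponentIn (interior L) z → f w = ((g w : ℂ) : OnePoint ℂ))}

/-- Mergelyan's theorem for the chordal metric. -/
theorem result (L : Set ℂ) (hL : IsCompact L) (hLc : IsConnected Lᶜ) :
    polynomialLimits L = classM L := by
  classical
  ext f
  set F : ℂ → OnePoint ℂ := fun z => if h : z ∈ L then f ⟨z, h⟩ else ∞ with hF
  have hFf : ∀ w : L, F w = f w := by
    intro w
    rw [hF]
    simp only
    rw [dif_pos w.2]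
  have h1 : f ∈ polynomialLimits L ↔
      (∃ P : ℕ → ℂ[X], ∀ ε > 0, ∃ N, ∀ n ≥ N, ∀ z ∈ L, chi ((P n).eval z : ℂ) (F z) < ε) := by
    constructor
    · rintro ⟨P, hP⟩
      refine ⟨P, fun ε hε => ?_⟩
      obtain ⟨N, hN⟩ := hP ε hε
      refine ⟨N, fun n hn z hz => ?_⟩
      have := hN n hn ⟨z, hz⟩
      rw [← hFf] at this
      exact this
    · rintro ⟨P, hP⟩
      refine ⟨P, fun ε hε => ?_⟩
      obtain ⟨N, hN⟩ := hP ε hε
      refine ⟨N, fun n hn z => ?_⟩
      have := hN n hn z z.2
      rw [hFf] at this
      exact this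
  have h2 : f ∈ classM L ↔ InM L F := by
    have hc : Continuous f ↔ ContinuousOn F L := by
      rw [continuousOn_iff_continuous_domRestrict]
      have : L.domRestrict F = f := by
        funext w
        exact hFf w
      rw [this]
    constructor
    · rintro ⟨hfc, hf⟩
      refine ⟨hc.1 hfc, fun z hz => ?_⟩
      have hsub : connectedComponentIn (interior L) z ⊆ L :=
        (connectedComponentIn_subset _ _).trans interior_subset
      rcases hf z hz with h | ⟨g, hg, h⟩
      · exact Or.inl fun w hw => by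
          have := h ⟨w, hsub hw⟩ hw
          rw [← hFf] at this
          exact this
      · exact Or.inr ⟨g, hg, fun w hw => by
          have := h ⟨w, hsub hw⟩ hw
          rw [← hFf] at this
          exact this⟩
    · rintro ⟨hfc, hf⟩
      refine ⟨hc.2 hfc, fun z hz => ?_⟩
      rcases hf z hz with h | ⟨g, hg, h⟩
      · exact Or.inl fun w hw => by
          rw [← hFf]
          exact h w hw
      · exact Or.inr ⟨g, hg, fun w hw => by
          rw [← hFf]
          exact h w hw⟩
  rw [h1, h2]
  exact main hL hLc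

end Pool.Agent.Results.MP_215127_an.ChordalMergelyan
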